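import Pool.Agent.Q274.BKC.Stm2

/-!
# Local data of a Selmer class modulo squares (job BKC-6, LOCX)
-/

set_option autoImplicit false
set_option linter.unusedVariables false

namespace Pool.Agent.Q174.BKC

open NumberField IsDedekindDomain
open scoped Classical
open Pool.Agent.Q274.BKC

/-! ### Quadratic extensions -/

/-- `1` and a square root are independent. -/
lemma indep {F E : Type} [Field F] [Field E] (φ : F →+* E) (c : F) (hc : ∀ t : F, t ^ 2 ≠ c)
    (τ : E) (hτ : τ ^ 2 = φ c) (a b : F) (h : φ a + φ b * τ = 0) : a = 0 ∧ b = 0 := by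
  have hb : b = 0 := by
    by_contra hb
    apply hc (-a / b)
    apply φ.injective
    have hb' : φ b ≠ 0 := (map_ne_zero φ).mpr hb
    have h1 : φ (-a / b) = τ := by
      rw [map_div₀, map_neg, div_eq_iff hb']
      linear_combination -h
    rw [map_pow, h1, hτ]
  subst hb
  refine ⟨?_, rfl⟩
  rw [map_zero, zero_mul, add_zero] at h
  exact (map_eq_zero φ).mp h

/-- comparison of coefficients -/
lemma indep2 {F E : Type} [Field F] [Field E] (φ : F →+* E) (c : F) (hc : ∀ t : F, t ^ 2 ≠ c)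
    (τ : E) (hτ : τ ^ 2 = φ c) (a b a' b' : F) (h : φ a + φ b * τ = φ a' + φ b' * τ) :
    a = a' ∧ b = b' := by
  have h1 := indep φ c hc τ hτ (a - a') (b - b') (by
    rw [map_sub, map_sub]
    linear_combination h)
  exact ⟨sub_eq_zero.mp h1.1, sub_eq_zero.mp h1.2⟩

lemma rat_ne {q : ℕ} (hq : 0 < q) (t : ℚ) : t ^ 2 ≠ -(q : ℚ) := by
  intro h
  have h1 : (0 : ℚ) < q := by exact_mod_cast hq
  nlinarith [sq_nonneg t]

section field

variable {K : Type} [Field K] [NumberField K] {q : ℕ} {s : K}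

lemma uniq (hq : 0 < q) (hs : s ^ 2 = -(q : K)) (a b a' b' : ℚ)
    (h : (a : K) + b * s = a' + b' * s) : a = a' ∧ b = b' := by
  refine indep2 (algebraMap ℚ K) (-(q : ℚ)) (rat_ne hq) s ?_ a b a' b' ?_
  · rw [hs]
    simp
  · simpa using h

lemma rep (hq : 0 < q) (hs : s ^ 2 = -(q : K)) (hf : Module.finrank ℚ K = 2) (y : K) :
    ∃ A B : ℚ, y = (A : K) + B * s := by
  have hli : LinearIndependent ℚ ![(1 : K), s] := by
    rw [LinearIndependent.pair_iff]
    intro a b h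
    have h1 := uniq hq hs a b 0 0 (by
      rw [Rat.smul_def, Rat.smul_def, mul_one] at h
      rw [h]
      simp)
    exact h1
  have hspan := hli.span_eq_top_of_card_eq_finrank' (by simp [hf])
  have hy : y ∈ Submodule.span ℚ (Set.range ![(1 : K), s]) := by
    rw [hspan]
    trivial
  rw [Matrix.range_cons, Matrix.range_cons, Matrix.range_empty, Set.union_empty,
    Set.singleton_union, Submodule.mem_span_pair] at hy
  obtain ⟨a, b, h⟩ := hy
  refine ⟨a, b, ?_⟩
  rw [← h, Rat.smul_def, Rat.smul_def, mul_one]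

lemma exists_hom {E : Type} [Field E] [CharZero E] (hq : 0 < q) (hs : s ^ 2 = -(q : K))
    (hf : Module.finrank ℚ K = 2) (τ : E) (hτ : τ ^ 2 = -(q : E)) :
    ∃ σ : K →+* E, ∀ A B : ℚ, σ ((A : K) + B * s) = (A : E) + B * τ := by
  choose fA fB h using rep hq hs hf
  have key : ∀ (A B : ℚ) (y : K), y = (A : K) + B * s → fA y = A ∧ fB y = B := by
    intro A B y hy
    exact uniq hq hs _ _ _ _ ((h y).symm.trans hy)
  refine ⟨
    { toFun := fun y => (fA y : E) + fB y * τ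
      map_one' := ?_
      map_zero' := ?_
      map_mul' := ?_
      map_add' := ?_ }, ?_⟩
  · obtain ⟨h1, h2⟩ := key 1 0 1 (by simp)
    rw [h1, h2]
    simp
  · intro x y
    obtain ⟨h1, h2⟩ := key (fA x * fA y - q * (fB x * fB y)) (fA x * fB y + fA y * fB x) (x * y) (by
      conv_lhs => rw [h x, h y]
      push_cast
      linear_combination ((fB x : K) * fB y) * hs)
    rw [h1, h2]
    push_cast
    linear_combination (-(fB x : E) * fB y) * hτ
  · obtain ⟨h1, h2⟩ := key 0 0 0 (by simp)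
    rw [h1, h2]
    simp
  · intro x y
    obtain ⟨h1, h2⟩ := key (fA x + fA y) (fB x + fB y) (x + y) (by
      conv_lhs => rw [h x, h y]
      push_cast
      ring)
    rw [h1, h2]
    push_cast
    ring
  · intro A B
    obtain ⟨h1, h2⟩ := key A B _ rfl
    change ((fA ((A : K) + B * s) : ℚ) : E) + (fB ((A : K) + B * s) : ℚ) * τ = _
    rw [h1, h2]

end field

/-! ### Norms -/

lemma norm_int_le {E : Type} [NormedField E] [IsUltrametricDist E] (y : E) (hy : IsIntegral ℤ y) :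
    ‖y‖ ≤ 1 := by
  have h := (Valuation.integer.integers (NormedField.valuation (K := E))).mem_of_integral
    (x := y) hy.tower_top
  rw [Valuation.mem_integer_iff, NormedField.valuation_apply] at h
  exact_mod_cast h

section padic

variable {l : ℕ} [Fact l.Prime] {q : ℕ}

lemma norm_nat_one {n : ℕ} (h : ¬ l ∣ n) : ‖(n : ℚ_[l])‖ = 1 := by
  have h1 := Padic.norm_int_le_one (p := l) (n : ℤ)
  have h2 := (Padic.norm_intCast_lt_one_iff (p := l) (k := (n : ℤ))).not.mpr
    (by exact_mod_cast h)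
  rw [Int.cast_natCast] at h1 h2
  exact le_antisymm h1 (not_lt.mp h2)

/-- the norm form is anisotropic modulo `l` -/
lemma norm_form (h2 : l ≠ 2) (hq : ¬ l ∣ q) (hns : ∀ t : ℚ_[l], t ^ 2 ≠ -(q : ℚ_[l]))
    (a b : ℚ_[l]) : ‖a ^ 2 + q * b ^ 2‖ = max ‖a‖ ‖b‖ ^ 2 := by
  have hq1 : ‖(q : ℚ_[l])‖ = 1 := norm_nat_one hq
  have h21 : ‖(2 : ℚ_[l])‖ = 1 := by
    have := norm_nat_one (l := l) (n := 2) (fun h => h2 ((Nat.prime_dvd_prime_iff_eq
      (Fact.out : l.Prime) Nat.prime_two).mp h))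
    exact_mod_cast this
  have hqb : ‖(q : ℚ_[l]) * b ^ 2‖ = ‖b‖ ^ 2 := by rw [norm_mul, norm_pow, hq1, one_mul]
  rcases lt_trichotomy ‖a‖ ‖b‖ with h | h | h
  · have h3 : ‖a ^ 2‖ < ‖(q : ℚ_[l]) * b ^ 2‖ := by
      rw [hqb, norm_pow]
      exact pow_lt_pow_left₀ h (norm_nonneg _) two_ne_zero
    rw [IsUltrametricDist.norm_add_eq_max_of_norm_ne_norm h3.ne, max_eq_right h3.le, hqb,
      max_eq_right h.le]
  · by_cases hb : b = 0
    · subst hb
      have : a = 0 := by rwa [norm_zero, norm_eq_zero] at h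
      subst this
      simp
    · have hb' : ‖b‖ ≠ 0 := norm_ne_zero_iff.mpr hb
      have hr : ‖a / b‖ = 1 := by rw [norm_div, h, div_self hb']
      have h3 : ‖(a / b) ^ 2 + q‖ = 1 := by
        apply le_antisymm
        · refine (IsUltrametricDist.norm_add_le_max _ _).trans ?_
          rw [norm_pow, hr, hq1]
          simp
        · by_contra h4
          push Not at h4
          -- Hensel
          set r : ℤ_[l] := ⟨a / b, hr.le⟩ with hrdef
          have hr1 : ‖r‖ = 1 := hr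
          let F : Polynomial ℤ_[l] := Polynomial.X ^ 2 + Polynomial.C (q : ℤ_[l])
          have hF : F.eval r = r ^ 2 + q := by simp [F]
          have hF' : F.derivative.eval r = 2 * r := by
            simp [F]
            left
            norm_num
          have h5 : ‖F.aeval r‖ < ‖F.derivative.aeval r‖ ^ 2 := by
            rw [Polynomial.coe_aeval_eq_eval, hF, hF', norm_mul, hr1, mul_one]
            have h6 : ‖(2 : ℤ_[l])‖ = 1 := by
              rw [PadicInt.norm_def]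
              exact h21
            rw [h6, one_pow, PadicInt.norm_def]
            push_cast
            exact h4
          obtain ⟨z, hz, -⟩ := hensels_lemma h5
          rw [Polynomial.coe_aeval_eq_eval] at hz
          have h7 : z ^ 2 + (q : ℤ_[l]) = 0 := by
            simpa [F] using hz
          apply hns (z : ℚ_[l])
          have h8 := congrArg (fun y : ℤ_[l] => (y : ℚ_[l])) h7
          push_cast at h8
          linear_combination h8
      have h4 : a ^ 2 + q * b ^ 2 = b ^ 2 * ((a / b) ^ 2 + q) := by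
        field_simp
      rw [h4, norm_mul, h3, mul_one, norm_pow, h, max_self]
  · have h3 : ‖(q : ℚ_[l]) * b ^ 2‖ < ‖a ^ 2‖ := by
      rw [hqb, norm_pow]
      exact pow_lt_pow_left₀ h (norm_nonneg _) two_ne_zero
    rw [IsUltrametricDist.norm_add_eq_max_of_norm_ne_norm h3.ne', max_eq_left h3.le, norm_pow,
      max_eq_left h.le]

lemma norm_tau (h2 : l ≠ 2) (hq : ¬ l ∣ q) (hns : ∀ t : ℚ_[l], t ^ 2 ≠ -(q : ℚ_[l]))
    (τ : PadicAlgCl l) (hτ : τ ^ 2 = -(q : PadicAlgCl l)) (a b : ℚ_[l]) :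
    ‖algebraMap ℚ_[l] (PadicAlgCl l) a + algebraMap ℚ_[l] (PadicAlgCl l) b * τ‖ =
      max ‖a‖ ‖b‖ := by
  have hq1 : ‖(q : ℚ_[l])‖ = 1 := norm_nat_one hq
  have hn : ∀ x : ℚ_[l], ‖algebraMap ℚ_[l] (PadicAlgCl l) x‖ = ‖x‖ := fun x => norm_algebraMap' _ x
  have hτ1 : ‖τ‖ = 1 := by
    have h3 : ‖τ‖ ^ 2 = 1 := by
      rw [← norm_pow, hτ, norm_neg, ← map_natCast (algebraMap ℚ_[l] (PadicAlgCl l)), hn, hq1]
    exact (pow_eq_one_iff_of_nonneg (norm_nonneg _) two_ne_zero).mp h3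
  have h3 : ∀ c : ℚ_[l], ‖algebraMap ℚ_[l] (PadicAlgCl l) c * τ‖ = ‖c‖ := by
    intro c
    rw [norm_mul, hτ1, mul_one, hn]
  set M := max ‖a‖ ‖b‖ with hM
  have h4 : ‖algebraMap ℚ_[l] (PadicAlgCl l) a + algebraMap ℚ_[l] (PadicAlgCl l) b * τ‖ ≤ M := by
    refine (IsUltrametricDist.norm_add_le_max _ _).trans ?_
    rw [hn, h3]
  have h5 : ‖algebraMap ℚ_[l] (PadicAlgCl l) a - algebraMap ℚ_[l] (PadicAlgCl l) b * τ‖ ≤ M := by
    rw [sub_eq_add_neg]
    refine (IsUltrametricDist.norm_add_le_max _ _).trans ?_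
    rw [hn, norm_neg, h3]
  have h6 : ‖algebraMap ℚ_[l] (PadicAlgCl l) a + algebraMap ℚ_[l] (PadicAlgCl l) b * τ‖ *
      ‖algebraMap ℚ_[l] (PadicAlgCl l) a - algebraMap ℚ_[l] (PadicAlgCl l) b * τ‖ = M ^ 2 := by
    rw [← norm_mul, ← norm_form h2 hq hns, ← hn]
    congr 1
    rw [map_add, map_mul, map_pow, map_pow, map_natCast]
    linear_combination (-(algebraMap ℚ_[l] (PadicAlgCl l) b) ^ 2) * hτ
  apply le_antisymm h4
  by_contra h7
  push Not at h7
  have h8 : 0 ≤ ‖algebraMap ℚ_[l] (PadicAlgCl l) a + algebraMap ℚ_[l] (PadicAlgCl l) b * τ‖ :=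
    norm_nonneg _
  have h9 : 0 < M := h8.trans_lt h7
  nlinarith [norm_nonneg (algebraMap ℚ_[l] (PadicAlgCl l) a -
    algebraMap ℚ_[l] (PadicAlgCl l) b * τ)]

lemma norm_rat {A : ℚ} (hA : A ≠ 0) : ‖(A : ℚ_[l])‖ = (l : ℝ) ^ (-padicValRat l A) := by
  rw [Padic.eq_padicNorm, padicNorm.eq_zpow_of_nonzero hA]
  push_cast
  rfl

lemma even_of_pow {m n : ℤ} (h : (l : ℝ) ^ (-m) = ((l : ℝ) ^ n) ^ 2) : m = -(2 * n) := by
  have hl : (1 : ℝ) < l := by exact_mod_cast (Fact.out : l.Prime).one_lt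
  rw [← zpow_natCast, ← zpow_mul] at h
  have h1 := zpow_right_injective₀ (by linarith) hl.ne' h
  push_cast at h1
  linarith

lemma one_lt_l : (1 : ℝ) < l := by exact_mod_cast (Fact.out : l.Prime).one_lt

lemma max_rat {A B : ℚ} (hA : A ≠ 0) (hB : B ≠ 0) :
    max ‖(A : ℚ_[l])‖ ‖(B : ℚ_[l])‖ = (l : ℝ) ^ (-min (padicValRat l A) (padicValRat l B)) := by
  rw [norm_rat hA, norm_rat hB]
  rcases le_total (padicValRat l A) (padicValRat l B) with h | h
  · rw [min_eq_left h, max_eq_left]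
    exact zpow_le_zpow_right₀ one_lt_l.le (by linarith)
  · rw [min_eq_right h, max_eq_right]
    exact zpow_le_zpow_right₀ one_lt_l.le (by linarith)

lemma max_padic {a b : ℚ_[l]} (h : a ≠ 0 ∨ b ≠ 0) : ∃ n : ℤ, max ‖a‖ ‖b‖ = (l : ℝ) ^ n := by
  have h1 : ∀ c : ℚ_[l], c ≠ 0 → ∃ n : ℤ, ‖c‖ = (l : ℝ) ^ n := fun c hc =>
    ⟨-c.valuation, Padic.norm_eq_zpow_neg_valuation hc⟩
  rcases max_choice ‖a‖ ‖b‖ with h2 | h2
  · rw [h2]
    by_cases ha : a = 0
    · subst ha
      rw [norm_zero] at h2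
      have h3 : ‖b‖ ≤ 0 := h2 ▸ le_max_right _ _
      have h4 : b = 0 := norm_le_zero_iff.mp h3
      rcases h with h | h
      · exact absurd rfl h
      · exact absurd h4 h
    · exact h1 a ha
  · rw [h2]
    by_cases hb : b = 0
    · subst hb
      rw [norm_zero] at h2
      have h3 : ‖a‖ ≤ 0 := h2 ▸ le_max_left _ _
      have h4 : a = 0 := norm_le_zero_iff.mp h3
      rcases h with h | h
      · exact absurd h4 h
      · exact absurd rfl h
    · exact h1 b hb

end padic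

/-! ### The main part -/

section main

variable {K : Type} [Field K] [NumberField K] {q D : ℕ} {s : K}

/-- the prime of `K` below `Q` -/
noncomputable def below (l : ℕ) (hl : l ≠ 0) (Q : Ideal (OB K)) (hQ : Q.IsMaximal)
    (h : (l : OB K) ∈ Q) : HeightOneSpectrum (𝓞 K) where
  asIdeal := Q.comap (algebraMap (𝓞 K) (OB K))
  isPrime := by
    have := hQ.isPrime
    exact Ideal.comap_isPrime _ _
  ne_bot := by
    intro h0
    have h1 : (l : 𝓞 K) ∈ Q.comap (algebraMap (𝓞 K) (OB K)) := by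
      rw [Ideal.mem_comap, map_natCast]
      exact h
    rw [h0, Ideal.mem_bot] at h1
    exact hl (by exact_mod_cast h1)

lemma norm_unit {l : ℕ} [Fact l.Prime] (hq : 0 < q) (hs : s ^ 2 = -(q : K))
    (hf : Module.finrank ℚ K = 2) {τ : PadicAlgCl l} {Q : Ideal (OB K)} (hE : Emb s l τ Q)
    (σ : K →+* PadicAlgCl l)
    (hσ : ∀ A B : ℚ, σ ((A : K) + B * s) = (A : PadicAlgCl l) + B * τ) (z : 𝓞 K)
    (hz : algebraMap (𝓞 K) (OB K) z ∉ Q) : ‖σ (z : K)‖ = 1 := by
  obtain ⟨A, B, h⟩ := rep hq hs hf (z : K)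
  apply le_antisymm
  · apply norm_int_le
    exact map_isIntegral_int σ z.isIntegral_coe
  · by_contra h1
    push Not at h1
    apply hz
    rw [hE.iff A B (algebraMap (𝓞 K) (OB K) z) ?_]
    · rw [← hσ, ← h]
      exact h1
    · rw [← h]
      rfl

lemma norm_x {l : ℕ} [Fact l.Prime] (hl : ¬ l ∣ 2 * q * D) (hq : 0 < q) (hs : s ^ 2 = -(q : K))
    (hf : Module.finrank ℚ K = 2) {τ : PadicAlgCl l} {Q : Ideal (OB K)} (hE : Emb s l τ Q)
    {x : K} (hX : SX q D s x) : ∃ a : K, a ≠ 0 ∧ ∀ σ : K →+* PadicAlgCl l,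
    (∀ A B : ℚ, σ ((A : K) + B * s) = (A : PadicAlgCl l) + B * τ) →
    ‖σ x‖ * ‖σ a‖ ^ 2 = 1 := by
  have hlp : l.Prime := Fact.out
  set v := below l hlp.ne_zero Q hE.max hE.mem with hv
  have hlv : (l : 𝓞 K) ∈ v.asIdeal := by
    change algebraMap (𝓞 K) (OB K) (l : 𝓞 K) ∈ Q
    rw [map_natCast]
    exact hE.mem
  have hn : ((2 * q * D : ℕ) : 𝓞 K) ∉ v.asIdeal := by
    intro h
    have h1 : IsCoprime ((l : ℕ) : 𝓞 K) ((2 * q * D : ℕ) : 𝓞 K) :=
      Nat.Coprime.cast ((Nat.Prime.coprime_iff_not_dvd hlp).mpr hl)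
    obtain ⟨a, b, hab⟩ := h1
    apply v.isPrime.ne_top
    rw [Ideal.eq_top_iff_one, ← hab]
    exact Ideal.add_mem _ (Ideal.mul_mem_left _ _ hlv) (Ideal.mul_mem_left _ _ h)
  obtain ⟨a, ha, hva⟩ := hX.even v hn
  refine ⟨a, ha, fun σ hσ => ?_⟩
  obtain ⟨n, d, hnd⟩ := v.exists_primeCompl_mul_eq_of_integer (x * a ^ 2) hva.le
  have hd : (d : 𝓞 K) ∉ v.asIdeal := d.2
  have hn' : n ∉ v.asIdeal := by
    rw [← v.valuation_eq_one_iff_notMem (K := K), ← hnd, map_mul, hva,
      (v.valuation_eq_one_iff_notMem (K := K)).mpr hd, one_mul]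
  have h1 := norm_unit hq hs hf hE σ hσ (d : 𝓞 K) hd
  have h2 := norm_unit hq hs hf hE σ hσ n hn'
  have h3 : σ (x * a ^ 2) * σ ((d : 𝓞 K) : K) = σ (n : K) := by
    rw [← map_mul]
    exact congrArg σ hnd
  have h4 := congrArg norm h3
  rw [norm_mul, h1, h2, mul_one, map_mul, map_pow, norm_mul, norm_pow] at h4
  exact h4

lemma exists_tau (l : ℕ) [Fact l.Prime] (q : ℕ) :
    ∃ τ : PadicAlgCl l, τ ^ 2 = -(q : PadicAlgCl l) := by
  obtain ⟨τ, hτ⟩ := IsAlgClosed.exists_pow_nat_eq (-(q : PadicAlgCl l)) (n := 2) two_pos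
  exact ⟨τ, hτ⟩

/-- the square roots at the split primes -/
lemma sq_split {l : ℕ} [Fact l.Prime] {t : ℚ_[l]} {Q : Ideal (OB K)} {A B : ℚ}
    (hE : Emb s l (algebraMap ℚ_[l] (PadicAlgCl l) t) Q)
    (h : Fx ((A : K) + B * s) (Dec Q) ∨ Fx (((A : K) + B * s) * (D * s)) (Dec Q))
    (hs : s ^ 2 = -(q : K)) (ht : t ^ 2 = -(q : ℚ_[l])) :
    IsSquare ((A : ℚ_[l]) + B * t) ∨ IsSquare (((A : ℚ_[l]) + B * t) * (D * t)) := by
  have key : ∀ A B : ℚ, Fx ((A : K) + B * s) (Dec Q) → IsSquare ((A : ℚ_[l]) + B * t) := by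
    intro A B h
    obtain ⟨a, b, hab⟩ := hE.sqr A B h
    refine ⟨a + b * t, ?_⟩
    apply (algebraMap ℚ_[l] (PadicAlgCl l)).injective
    rw [map_mul, map_add, map_add, map_mul, map_mul, map_ratCast, map_ratCast, ← hab]
    ring
  rcases h with h | h
  · exact Or.inl (key A B h)
  · right
    have h1 : ((A : K) + B * s) * (D * s) =
        ((-(q * D * B) : ℚ) : K) + ((D * A : ℚ) : K) * s := by
      push_cast
      linear_combination (B * D : K) * hs
    rw [h1] at h
    have h2 := key _ _ h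
    have h3 : ((A : ℚ_[l]) + B * t) * (D * t) =
        ((-(q * D * B) : ℚ) : ℚ_[l]) + ((D * A : ℚ) : ℚ_[l]) * t := by
      push_cast
      linear_combination (B * D : ℚ_[l]) * ht
    rw [h3]
    exact h2

end main

/-- BKC-6. -/
theorem t_LOCX : S_LOCX := by
  intro hEMB K _ _ q D s A B hqp hq8 hCl hs hf hA hB hX hFx
  have hq0 : 0 < q := hqp.pos
  have hq2 : q ≠ 2 := by
    rintro rfl
    omega
  refine ⟨hA, hB, ?_, ?_, ?_, ?_, ?_, ?_⟩
  · -- good
    intro l hl hlq t ht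
    have hτ : (algebraMap ℚ_[l] (PadicAlgCl l) t) ^ 2 = -(q : PadicAlgCl l) := by
      rw [← map_pow, ht, map_neg, map_natCast]
    obtain ⟨Q, hE⟩ := (hEMB K q s hqp hq8 hs hf l).1 _ hτ
    obtain ⟨a, ha, h⟩ := norm_x hlq hq0 hs hf hE hX
    obtain ⟨σ, hσ⟩ := exists_hom hq0 hs hf _ hτ
    obtain ⟨A', B', hab⟩ := rep hq0 hs hf a
    have h1 := h σ hσ
    have h2 : σ a = algebraMap ℚ_[l] (PadicAlgCl l) ((A' : ℚ_[l]) + B' * t) := by
      rw [hab, hσ, map_add, map_mul, map_ratCast, map_ratCast]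
    have h3 : σ ((A : K) + B * s) = algebraMap ℚ_[l] (PadicAlgCl l) ((A : ℚ_[l]) + B * t) := by
      rw [hσ, map_add, map_mul, map_ratCast, map_ratCast]
    rw [h2, h3, norm_algebraMap', norm_algebraMap'] at h1
    have h4 : (A' : ℚ_[l]) + B' * t ≠ 0 := by
      intro h0
      rw [h0, map_zero] at h2
      exact ha ((map_eq_zero σ).mp h2)
    refine ⟨((A' : ℚ_[l]) + B' * t)⁻¹, ((A : ℚ_[l]) + B * t) * ((A' : ℚ_[l]) + B' * t) ^ 2,
      inv_ne_zero h4, ?_, ?_⟩
    · rw [norm_mul, norm_pow]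
      exact h1
    · have h5 : ∀ x y : ℚ_[l], y ≠ 0 → x = y⁻¹ ^ 2 * (x * y ^ 2) := by
        intro x y hy
        field_simp
      exact h5 _ _ h4
  · -- goodi
    intro l hl hlq hns
    have hlp : l.Prime := Fact.out
    have hl2 : l ≠ 2 := by
      rintro rfl
      exact hlq ⟨q * D, by ring⟩
    have hlq' : ¬ l ∣ q := fun h0 => hlq (Dvd.dvd.mul_right (Dvd.dvd.mul_left h0 2) D)
    obtain ⟨τ, hτ⟩ := exists_tau l q
    obtain ⟨Q, hE⟩ := (hEMB K q s hqp hq8 hs hf l).1 _ hτ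
    obtain ⟨a, ha, h⟩ := norm_x hlq hq0 hs hf hE hX
    obtain ⟨σ, hσ⟩ := exists_hom hq0 hs hf _ hτ
    obtain ⟨A', B', hab⟩ := rep hq0 hs hf a
    have h1 := h σ hσ
    have h2 : ∀ A B : ℚ, ‖σ ((A : K) + B * s)‖ = max ‖(A : ℚ_[l])‖ ‖(B : ℚ_[l])‖ := by
      intro A B
      rw [hσ, ← norm_tau hl2 hlq' hns τ hτ, map_ratCast, map_ratCast]
    have h3 : (A' : ℚ_[l]) ≠ 0 ∨ (B' : ℚ_[l]) ≠ 0 := by
      by_contra h0
      push Not at h0
      apply ha
      rw [hab, Rat.cast_eq_zero.mp h0.1, Rat.cast_eq_zero.mp h0.2]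
      simp
    obtain ⟨n, hn⟩ := max_padic h3
    rw [hab, h2, h2, max_rat hA hB, hn] at h1
    have h4 : (l : ℝ) ^ (-min (padicValRat l A) (padicValRat l B)) = ((l : ℝ) ^ (-n)) ^ 2 := by
      have h5 : (l : ℝ) ^ n ≠ 0 := zpow_ne_zero _ (Nat.cast_ne_zero.mpr hlp.ne_zero)
      rw [zpow_neg (l : ℝ) n, inv_pow]
      exact eq_inv_of_mul_eq_one_left h1
    rw [even_of_pow h4]
    exact ⟨n, by ring⟩
  · -- split
    intro l hl hlD t ht
    have hlp : l.Prime := Fact.out
    have hτ : (algebraMap ℚ_[l] (PadicAlgCl l) t) ^ 2 = -(q : PadicAlgCl l) := by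
      rw [← map_pow, ht, map_neg, map_natCast]
    obtain ⟨Q, hE⟩ := (hEMB K q s hqp hq8 hs hf l).1 _ hτ
    exact sq_split hE (hX.loc l Q hlp (Dvd.dvd.mul_left hlD q) hE.max hE.mem) hs ht
  · -- inert
    intro l hl hlD hns
    have hlp : l.Prime := Fact.out
    obtain ⟨hl4, hlq⟩ := hCl.one l hlp hlD
    have hl2 : l ≠ 2 := by
      rintro rfl
      omega
    have hlq' : ¬ l ∣ q := fun h0 => hlq ((Nat.prime_dvd_prime_iff_eq hlp hqp).mp h0)
    obtain ⟨τ, hτ⟩ := exists_tau l q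
    obtain ⟨Q, hE⟩ := (hEMB K q s hqp hq8 hs hf l).1 _ hτ
    have key : ∀ A B : ℚ, A ≠ 0 → B ≠ 0 → Fx ((A : K) + B * s) (Dec Q) →
        Even (min (padicValRat l A) (padicValRat l B)) ∧
          IsSquare (((A ^ 2 + q * B ^ 2 : ℚ)) : ℚ_[l]) := by
      intro A B hA hB h
      obtain ⟨a, b, hab⟩ := hE.sqr A B h
      have h1 := indep2 (algebraMap ℚ_[l] (PadicAlgCl l)) (-(q : ℚ_[l])) hns τ
        (by rw [hτ, map_neg, map_natCast]) (a ^ 2 - q * b ^ 2) (2 * a * b) A B (by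
          rw [map_sub, map_mul, map_pow, map_pow, map_natCast, map_mul, map_mul, map_ofNat,
            map_ratCast, map_ratCast, ← hab]
          linear_combination (-(algebraMap ℚ_[l] (PadicAlgCl l) b) ^ 2) * hτ)
      constructor
      · have h2 : a ≠ 0 ∨ b ≠ 0 := by
          by_contra h0
          push Not at h0
          rw [h0.1, h0.2] at h1
          apply hA
          have h3 : (A : ℚ_[l]) = 0 := by
            rw [← h1.1]
            ring
          exact_mod_cast h3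
        obtain ⟨n, hn⟩ := max_padic h2
        have h3 := congrArg norm hab
        rw [norm_pow, norm_tau hl2 hlq' hns τ hτ, hn, ← map_ratCast (algebraMap ℚ_[l] _) A,
          ← map_ratCast (algebraMap ℚ_[l] _) B, norm_tau hl2 hlq' hns τ hτ, max_rat hA hB] at h3
        rw [even_of_pow h3.symm]
        exact ⟨-n, by ring⟩
      · refine ⟨a ^ 2 + q * b ^ 2, ?_⟩
        push_cast
        rw [← h1.1, ← h1.2]
        ring
    have hD0 : (D : ℚ) ≠ 0 := by
      have := hCl.sqf.ne_zero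
      exact_mod_cast this
    have hq0' : (q : ℚ) ≠ 0 := by exact_mod_cast hq0.ne'
    rcases hX.loc l Q hlp (Dvd.dvd.mul_left hlD q) hE.max hE.mem with h | h
    · exact Or.inl (key A B hA hB h)
    · right
      have h1 : ((A : K) + B * s) * (D * s) =
          ((-(q * D * B) : ℚ) : K) + ((D * A : ℚ) : K) * s := by
        push_cast
        linear_combination (B * D : K) * hs
      rw [h1] at h
      obtain ⟨h2, c, h3⟩ := key _ _ (neg_ne_zero.mpr (mul_ne_zero (mul_ne_zero hq0' hD0) hB))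
        (mul_ne_zero hD0 hA) h
      have hvD : padicValRat l (D : ℚ) = 1 := by
        rw [padicValRat.of_nat]
        have h4 : padicValNat l D = 1 := by
          apply le_antisymm
          · rw [← Nat.factorization_def D hlp]
            exact (Nat.squarefree_iff_factorization_le_one hCl.sqf.ne_zero).mp hCl.sqf l
          · exact one_le_padicValNat_of_dvd hCl.sqf.ne_zero hlD
        rw [h4]
        rfl
      have hvq : padicValRat l (q : ℚ) = 0 := by
        rw [padicValRat.of_nat, padicValNat.eq_zero_of_not_dvd hlq']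
        rfl
      rw [padicValRat.neg, padicValRat.mul (mul_ne_zero hq0' hD0) hB, padicValRat.mul hq0' hD0,
        padicValRat.mul hD0 hA, hvD, hvq] at h2
      constructor
      · rw [show (0 : ℤ) + 1 + padicValRat l B = 1 + padicValRat l B by ring, min_comm,
          min_add_add_left] at h2
        rw [← Int.not_even_iff_odd]
        intro h4
        obtain ⟨m, hm⟩ := h2
        obtain ⟨m', hm'⟩ := h4
        omega
      · have hD' : (D : ℚ_[l]) ≠ 0 := by
          have := hCl.sqf.ne_zero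
          exact_mod_cast this
        refine ⟨c / D, ?_⟩
        rw [div_mul_div_comm, ← h3]
        push_cast
        field_simp
        ring
  · -- ram
    intro hqf
    obtain ⟨τ, hτ⟩ := exists_tau q q
    obtain ⟨Q, hE⟩ := (hEMB K q s hqp hq8 hs hf q).1 _ hτ
    obtain ⟨a, b, hab⟩ := hE.sqr A B (hFx Q hE.max hE.mem)
    have hns : ∀ t : ℚ_[q], t ^ 2 ≠ -(q : ℚ_[q]) := by
      intro t ht
      have ht0 : t ≠ 0 := by
        rintro rfl
        rw [zero_pow two_ne_zero, zero_eq_neg] at ht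
        exact hq0.ne' (by exact_mod_cast ht)
      have h2 := congrArg norm ht
      rw [norm_pow, norm_neg, Padic.norm_p, Padic.norm_eq_zpow_neg_valuation ht0,
        ← zpow_neg_one] at h2
      have h3 := even_of_pow h2.symm
      omega
    have h1 := indep2 (algebraMap ℚ_[q] (PadicAlgCl q)) (-(q : ℚ_[q])) hns τ
      (by rw [hτ, map_neg, map_natCast]) (a ^ 2 - q * b ^ 2) (2 * a * b) A B (by
        rw [map_sub, map_mul, map_pow, map_pow, map_natCast, map_mul, map_mul, map_ofNat,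
          map_ratCast, map_ratCast, ← hab]
        linear_combination (-(algebraMap ℚ_[q] (PadicAlgCl q) b) ^ 2) * hτ)
    exact ⟨a, b, h1.1.symm, h1.2.symm⟩
  · -- two
    intro t ht ht1
    have hτ : (algebraMap ℚ_[2] (PadicAlgCl 2) t) ^ 2 = -(q : PadicAlgCl 2) := by
      rw [← map_pow, ht, map_neg, map_natCast]
    obtain ⟨Q, hE⟩ := (hEMB K q s hqp hq8 hs hf 2).1 _ hτ
    refine sq_split hE (hX.two Q hE.max ?_) hs ht
    obtain ⟨m, hm⟩ : ∃ m : ℕ, q = 8 * m + 7 := ⟨q / 8, by omega⟩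
    set S := algebraMap K (AlgebraicClosure K) s with hS
    have hS2 : S ^ 2 = -(8 * m + 7 : AlgebraicClosure K) := by
      rw [hS, ← map_pow, hs, hm, map_neg, map_natCast]
      push_cast
      ring
    have hint : IsIntegral ℤ ((1 - S) / 2) := by
      refine ⟨Polynomial.X ^ 2 - Polynomial.X + Polynomial.C (2 * (m : ℤ) + 2), ?_, ?_⟩
      · monicity!
      · have h5 : algebraMap ℤ (AlgebraicClosure K) (2 * (m : ℤ) + 2) = 2 * m + 2 := by
          rw [map_add, map_mul, map_natCast, map_ofNat]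
        simp only [Polynomial.eval₂_add, Polynomial.eval₂_sub, Polynomial.eval₂_pow,
          Polynomial.eval₂_X, Polynomial.eval₂_C]
        rw [h5]
        linear_combination (1 / 4 : AlgebraicClosure K) * hS2
    obtain ⟨z, hz⟩ : ∃ z : OB K, (z : AlgebraicClosure K) = (1 - S) / 2 := ⟨⟨_, hint⟩, rfl⟩
    refine ⟨z, ?_, ?_⟩
    · refine (hE.iff (1 / 2) (-1 / 2) z ?_).mpr ?_
      · rw [hz, map_add, map_mul, ← hS, map_ratCast, map_ratCast]
        push_cast
        ring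
      have h1 : ((1 / 2 : ℚ) : PadicAlgCl 2) + ((-1 / 2 : ℚ) : PadicAlgCl 2) *
          algebraMap ℚ_[2] (PadicAlgCl 2) t = algebraMap ℚ_[2] (PadicAlgCl 2) ((1 - t) / 2) := by
        rw [map_div₀, map_sub, map_one, map_ofNat]
        push_cast
        ring
      rw [h1, norm_algebraMap', norm_div, norm_sub_rev]
      have h2 : ‖(2 : ℚ_[2])‖ = 1 / 2 := by
        have := Padic.norm_p (p := 2)
        rw [Nat.cast_ofNat, Nat.cast_ofNat] at this
        rw [this, one_div]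
      rw [h2]
      linarith
    · rw [hz]
      ring

end Pool.Agent.Q174.BKC
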